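import Mathlib
import Pool.Agent.H94.IC.Targets3

/-!
# Insulating cracks which are real-analytic in their interior (MP_0ee698_an): definitions
-/

open MeasureTheory Set Filter Topology Metric
open scoped ENNReal NNReal ContDiff RealInnerProductSpace

namespace Pool.Agent.H94.AC

open Pool.Agent.H94.IC

/-- near `p` the set `S` is a real-analytic surface: a real-analytic chart with real-analytic inverse maps it
to a plane -/
def AChart (S : Set E) (p : E) : Prop :=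
  ∃ Ψ : OpenPartialHomeomorph E E, p ∈ Ψ.source ∧ ContDiffOn ℝ ω Ψ Ψ.source ∧
    ContDiffOn ℝ ω Ψ.symm Ψ.target ∧ ∀ x ∈ Ψ.source, x ∈ S ↔ (Ψ x) 2 = 0

/-- admissible cracks which are real-analytic at their interior points -/
structure IsAnaCrack (Ω S : Set E) : Prop where
  crack : IsCrack Ω S
  ana : ∀ p ∈ intPts S, AChart S p

/-- the two profiles -/
noncomputable def prof2 (ν : E → E) : Fin 2 → E → ℝ :=
  ![fun x => (ν x) 0, fun x => x 1 * (ν x) 0 + x 0 * (ν x) 1 + (ν x) 2]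

/-- equality of the measurements implies `S ⊆ S'` -/
def Contain {N : ℕ} (Ω : Set E) (σ : Measure E) (ν : E → E) (ψ : Fin N → E → ℝ) (S S' : Set E) : Prop :=
  ∀ (u u' : Fin N → E → ℝ) (F F' : Fin N → E → E) (τ τ' : Fin N → E → ℝ),
    (∀ i, Sol Ω S σ ν (ψ i) (u i) (F i) (τ i)) → (∀ i, ∫ x, τ i x ∂σ = 0) →
    (∀ i, Sol Ω S' σ ν (ψ i) (u' i) (F' i) (τ' i)) → (∀ i, ∫ x, τ' i x ∂σ = 0) →
    (∀ i, τ i =ᵐ[σ] τ' i) → S ⊆ S'

/-- the two potentials without crack -/
noncomputable def pot : Fin 2 → E → ℝ := ![fun x => x 0, fun x => x 0 * x 1 + x 2]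

/-- test functions supported in `K` -/
structure TK (Ω S K : Set E) (φ : E → ℝ) : Prop where
  sm : ContDiffOn ℝ ∞ φ (Ω \ S)
  l2 : MemLp φ 2 (volume.restrict Ω)
  g2 : MemLp (gr φ) 2 (volume.restrict Ω)
  out : ∀ x ∈ Ω \ K, φ x = 0

/-- the jump functional -/
noncomputable def JX (Ω : Set E) (X : E → E) (f : E → ℝ) : ℝ := ∫ x in Ω, (f x * dv X x + ⟪gr f x, X x⟫)

/-- no jump near `p` -/
def NJ (Ω : Set E) (h : E → ℝ) (p : E) : Prop := ∃ r > 0, ball p r ⊆ Ω ∧
  ∀ X : E → E, ContDiff ℝ ∞ X → HasCompactSupport X → tsupport X ⊆ ball p r → JX Ω X h = 0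

end Pool.Agent.H94.AC
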