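import Mathlib
import Pool.Agent.H94.AC.Defs

/-!
# Real-analytic insulating cracks: targets

Modules: one `Prop` `T_XX` per module.
-/

open MeasureTheory Set Filter Topology Metric
open scoped ENNReal NNReal ContDiff RealInnerProductSpace

namespace Pool.Agent.H94.AC

open Pool.Agent.H94.IC

/-! ## Topology of cracks -/

/-- a crack does not disconnect the domain -/
def T_CNX : Prop := ∀ Ω S : Set E, IsOpen Ω → IsConnected Ω → IsCrack Ω S → IsConnected (Ω \ S)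

/-- the set of interior points of a crack is connected -/
def T_CNI : Prop := ∀ Ω S : Set E, IsCrack Ω S → IsPreconnected (intPts S)

/-- interior points are not points of the edge -/
def T_DSJ : Prop := ∀ (S : Set E) (p : E), ¬ (FlatChart S p False ∧ FlatChart S p True)

/-- the edge is compact and nonempty, all other points are interior points -/
def T_EDC : Prop := ∀ Ω S : Set E, IsCrack Ω S → IsCompact (edgePts S) ∧ (edgePts S).Nonempty ∧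
  edgePts S ⊆ S ∧ (∀ p ∈ S, p ∉ edgePts S → p ∈ intPts S) ∧ volume S = 0

/-- volume of the tubes around the edge -/
def T_TBC : Prop := ∀ Ω S : Set E, IsCrack Ω S → ∃ C : ℝ, ∀ r ∈ Ioc (0 : ℝ) 1,
  volume (thickening r (edgePts S)) ≤ ENNReal.ofReal (C * r ^ 2)

/-! ## No flux out of flux free sets, for cracks of any genus -/

/-- the normal flux through a flat piece of the crack is small in the mean -/
def T_FCL : Prop := ∀ (Ω S : Set E) (h : E → ℝ) (Ψ : OpenPartialHomeomorph E E) (p : E), IsOpen Ω →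
  Bornology.IsBounded Ω → IsClosed S → WN Ω S h → p ∈ Ψ.source → (Ψ p) 2 = 0 → Ψ.source ⊆ Ω →
  ContDiffOn ℝ ∞ Ψ Ψ.source → ContDiffOn ℝ ∞ Ψ.symm Ψ.target → (∀ x ∈ Ψ.source, x ∈ S ↔ (Ψ x) 2 = 0) →
  ∃ r > 0, closedBall p r ⊆ Ψ.source ∧
    IntegrableOn (fun x => ⟪gr h x, gr (fun z => (Ψ z) 2) x⟫) (ball p r) ∧
    Tendsto (fun d : ℝ => d⁻¹ * ∫ x in ball p r ∩ {x | |(Ψ x) 2| < d ∧ (Ψ x) 2 ≠ 0},
      |⟪gr h x, gr (fun z => (Ψ z) 2) x⟫|) (𝓝[>] 0) (𝓝 0)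

/-- no flux out of a flux free set, near points off the edge; the test function is `κ φ` -/
def T_FML : Prop := ∀ (Ω S : Set E) (h : E → ℝ) (D : Set E) (p : E), IsOpen Ω → Bornology.IsBounded Ω →
  IsCrack Ω S → WN Ω S h → IsOpen D → FF D (gr h) (Ω \ S) → p ∈ Ω → p ∉ edgePts S →
  ∃ r > 0, ball p r ⊆ Ω ∧ ∀ κ φ : E → ℝ, (∃ C : ℝ≥0, LipschitzWith C κ) → HasCompactSupport κ →
    tsupport κ ⊆ ball p r → ContDiffOn ℝ ∞ φ (Ω \ S) → (∃ M : ℝ, ∀ x, |φ x| ≤ M) →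
    MemLp (gr φ) 2 (volume.restrict Ω) →
    ∫ x in D ∩ Ω, (κ x * ⟪gr h x, gr φ x⟫ + φ x * ⟪gr h x, gr κ x⟫) = 0

/-- no flux out of a flux free set -/
def T_FMC : Prop := ∀ (Ω S : Set E) (h : E → ℝ) (D : Set E), IsOpen Ω → Bornology.IsBounded Ω → IsCrack Ω S →
  WN Ω S h → IsOpen D → FF D (gr h) (Ω \ S) → ∀ (φ : E → ℝ) (K : Set E), ContDiffOn ℝ ∞ φ (Ω \ S) →
    (∃ M : ℝ, ∀ x, |φ x| ≤ M) → MemLp (gr φ) 2 (volume.restrict Ω) → IsCompact K → K ⊆ Ω →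
    (∀ x ∈ Ω \ K, φ x = 0) → ∫ x in D ∩ Ω, ⟪gr h x, gr φ x⟫ = 0

/-- flux free sets inside the domain carry no gradient -/
def T_FMG : Prop := ∀ (Ω S : Set E) (h : E → ℝ) (D : Set E), IsOpen Ω → Bornology.IsBounded Ω → IsCrack Ω S →
  WN Ω S h → IsOpen D → closure D ⊆ Ω → FF D (gr h) (Ω \ S) → ∀ x ∈ D, x ∉ S → gr h x = 0

/-! ## Equality of the potentials -/

/-- the two profiles are admissible -/
def T_PRT : Prop := ∀ (Ω : Set E) (σ : Measure E) (ν : E → E), Dom Ω → IsSurf Ω σ ν →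
  ∀ i, IsProfile σ (prof2 ν i)

/-- the solution for the first profile is nowhere locally constant -/
def T_NVO : Prop := ∀ (Ω S : Set E) (σ : Measure E) (ν : E → E) (h τ : E → ℝ), Dom Ω → IsSurf Ω σ ν →
  IsCompact S → S ⊆ Ω → volume S = 0 → IsPreconnected (Ω \ S) → Harm (Ω \ S) h →
  Sol Ω S σ ν (prof2 ν 0) h (gr h) τ →
  ∀ W : Set E, IsOpen W → W.Nonempty → W ⊆ Ω \ S → ¬ ∀ x ∈ W, gr h x = 0

/-- equal measurements: the potentials agree off the two cracks -/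
def T_EQC : Prop := ∀ (Ω S S' : Set E) (σ : Measure E) (ν : E → E) (h h' τ τ' : Fin 2 → E → ℝ), Dom Ω →
  IsSurf Ω σ ν → IsCrack Ω S → IsCrack Ω S' → (∀ i, Harm (Ω \ S) (h i)) →
  (∀ i, Sol Ω S σ ν (prof2 ν i) (h i) (gr (h i)) (τ i)) → (∀ i, Harm (Ω \ S') (h' i)) →
  (∀ i, Sol Ω S' σ ν (prof2 ν i) (h' i) (gr (h' i)) (τ' i)) → (∀ i, τ i =ᵐ[σ] τ' i) →
  ∀ i, ∀ x ∈ Ω, x ∉ S → x ∉ S' → h i x = h' i x

/-! ## Analytic continuation of the jump -/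

/-- superposition with an analytic map is analytic on spaces of continuous functions -/
def T_SUP : Prop := ∀ (F : Type) [NormedAddCommGroup F] [NormedSpace ℝ F] [CompleteSpace F] (G : E → F),
  AnalyticAt ℝ G 0 → ∃ r : ℝ, 0 < r ∧ ∀ (X : Type) [TopologicalSpace X] [CompactSpace X],
    ∃ N : C(X, E) → C(X, F), AnalyticOnNhd ℝ N (ball 0 r) ∧
      ∀ f ∈ ball (0 : C(X, E)) r, ∀ x, N f x = G (f x)

/-- analytic dependence of projected solutions -/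
def T_ABS : Prop := ∀ (H : Type) [NormedAddCommGroup H] [InnerProductSpace ℝ H] [CompleteSpace H]
  (W : Submodule ℝ H) (J : Set ℝ) (a : ℝ → (H →L[ℝ] H)) (F : ℝ → H), IsOpen J → (0 : ℝ) ∈ J →
  AnalyticOnNhd ℝ a J → (∀ t ∈ J, ‖a t - 1‖ ≤ 1 / 2) → (∀ t ∈ J, F t - F 0 ∈ W) →
  (∀ t ∈ J, ∀ w ∈ W, ⟪a t (F t), w⟫ = 0) → AnalyticOnNhd ℝ F J

/-- Lebesgue measure on the points of `K` -/
noncomputable def mu (K : Set E) : Measure K := Measure.comap Subtype.val volume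

/-- multiplication operators on square integrable fields -/
def T_MUO : Prop := ∀ (K : Set E) [CompactSpace K],
  ∃ Θ : C(K, E →L[ℝ] E) →L[ℝ] (Lp E 2 (mu K) →L[ℝ] Lp E 2 (mu K)),
    (∀ f u, (Θ f u : K → E) =ᵐ[mu K] fun x => f x (u x)) ∧ ∀ f, ‖Θ f‖ ≤ ‖f‖

/-- analytic dependence for weak Neumann problems -/
def T_ATR : Prop := ∀ (Ω S K : Set E) [CompactSpace K] (J : Set ℝ) (Γ : ℝ → C(K, E →L[ℝ] E)) (f : ℝ → E → ℝ)
  (L : (E → ℝ) → ℝ) (C : ℝ), IsOpen Ω → IsClosed S → volume S = 0 → K ⊆ Ω → IsOpen J → (0 : ℝ) ∈ J →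
  AnalyticOnNhd ℝ Γ J → (∀ t ∈ J, ‖Γ t - 1‖ ≤ 1 / 2) →
  (∀ φ ψ a b, TK Ω S K φ → TK Ω S K ψ → L (fun x => a * φ x + b * ψ x) = a * L φ + b * L ψ) →
  (∀ φ, TK Ω S K φ → |L φ| ≤ C * Real.sqrt (∫ x in K, ‖gr φ x‖ ^ 2)) →
  (∀ t ∈ J, ContDiffOn ℝ ∞ (f t) (Ω \ S)) → (∀ t ∈ J, MemLp (gr (f t)) 2 (volume.restrict K)) →
  (∀ t ∈ J, TK Ω S K (fun x => f t x - f 0 x)) →
  (∀ t ∈ J, ∀ φ, TK Ω S K φ → ∫ x : K, ⟪Γ t x (gr (f t) x), gr φ x⟫ ∂(mu K) = 0) →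
  AnalyticOnNhd ℝ (fun t => L (fun x => f t x - f 0 x)) J

open Classical in
/-- the deformation: translation by `l` in the chart, cut off by `χ` -/
noncomputable def defo (Ψ : OpenPartialHomeomorph E E) (χ : E → ℝ) (l x : E) : E :=
  if x ∈ Ψ.source then Ψ.symm (Ψ x + χ (Ψ x) • l) else x

/-- the cutoff functions in the chart -/
structure Chi (χ : E → ℝ) (R : ℝ) : Prop where
  sm : ContDiff ℝ ∞ χ
  ran : ∀ y, 0 ≤ χ y ∧ χ y ≤ 1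
  out : ∀ y, R ≤ ‖y‖ → χ y = 0

/-- small deformations are diffeomorphisms -/
def T_DFO : Prop := ∀ (Ψ : OpenPartialHomeomorph E E) (R : ℝ) (χ : E → ℝ), 0 < R →
  closedBall 0 (2 * R) ⊆ Ψ.target → ContDiffOn ℝ ∞ Ψ Ψ.source → ContDiffOn ℝ ∞ Ψ.symm Ψ.target → Chi χ R →
  ∃ ρ : ℝ, 0 < ρ ∧ ∀ l ∈ ball (0 : E) ρ, l 2 = 0 → ContDiff ℝ ∞ (defo Ψ χ l) ∧
    (∃ T' : E → E, ContDiff ℝ ∞ T' ∧ ∀ x, defo Ψ χ l (T' x) = x ∧ T' (defo Ψ χ l x) = x) ∧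
    (∀ x ∈ Ψ.source, defo Ψ χ l x ∈ Ψ.source ∧ Ψ (defo Ψ χ l x) = Ψ x + χ (Ψ x) • l)

/-- the metric pulled back by the deformations depends analytically on `l` -/
def T_DFA : Prop := ∀ (Ψ : OpenPartialHomeomorph E E), (0 : E) ∈ Ψ.target → ContDiffOn ℝ ω Ψ Ψ.source →
  ContDiffOn ℝ ω Ψ.symm Ψ.target → ∃ R0 : ℝ, 0 < R0 ∧ closedBall 0 R0 ⊆ Ψ.target ∧
    ∀ (R : ℝ) (χ : E → ℝ), 0 < R → R ≤ R0 → Chi χ R → ∀ [CompactSpace (Ψ.symm '' closedBall 0 R)],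
    ∃ (ρ : ℝ) (Γ : E → C(Ψ.symm '' closedBall 0 R, E →L[ℝ] E)), 0 < ρ ∧
      AnalyticOnNhd ℝ Γ (ball 0 ρ) ∧ (∀ l ∈ ball (0 : E) ρ, ‖Γ l - 1‖ ≤ 1 / 2) ∧
      ∀ l ∈ ball (0 : E) ρ, ∀ (x : Ψ.symm '' closedBall 0 R) (a b : E),
        ⟪Γ l x (ContinuousLinearMap.adjoint (fderiv ℝ (defo Ψ χ l) x) a),
          ContinuousLinearMap.adjoint (fderiv ℝ (defo Ψ χ l) x) b⟫
          = |(fderiv ℝ (defo Ψ χ l) x).det| * ⟪a, b⟫

/-- the pulled back equation -/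
def T_PBE : Prop := ∀ (Ω S K : Set E) (h : E → ℝ) (T T' : E → E), IsOpen Ω → Bornology.IsBounded Ω →
  IsClosed S → volume S = 0 → IsCompact K → K ⊆ Ω → WN Ω S h → ContDiff ℝ ∞ T → ContDiff ℝ ∞ T' →
  (∀ x, T (T' x) = x ∧ T' (T x) = x) → (∀ x ∉ K, T x = x) → (∀ x, T x ∈ S ↔ x ∈ S) →
  TK Ω S K (fun x => h (T x) - h x) ∧ MemLp (gr fun x => h (T x)) 2 (volume.restrict K) ∧
  ContDiffOn ℝ ∞ (fun x => h (T x)) (Ω \ S) ∧
  ∀ (φ : E → ℝ) (M : E → (E →L[ℝ] E)), TK Ω S K φ →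
    (∀ x ∈ K, ∀ a b : E, ⟪M x (ContinuousLinearMap.adjoint (fderiv ℝ T x) a),
      ContinuousLinearMap.adjoint (fderiv ℝ T x) b⟫ = |(fderiv ℝ T x).det| * ⟪a, b⟫) →
    ∫ x in K, ⟪M x (gr (fun z => h (T z)) x), gr φ x⟫ = 0

/-- Poincaré inequality for test functions near a flat piece of the crack -/
def T_POI : Prop := ∀ (Ψ : OpenPartialHomeomorph E E) (R : ℝ) (Ω S : Set E), 0 < R →
  closedBall 0 (2 * R) ⊆ Ψ.target → ContDiffOn ℝ ∞ Ψ Ψ.source → ContDiffOn ℝ ∞ Ψ.symm Ψ.target → IsOpen Ω →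
  IsClosed S → volume S = 0 → Ψ.symm '' closedBall 0 (2 * R) ⊆ Ω →
  (∀ x ∈ Ψ.source, x ∈ S ↔ (Ψ x) 2 = 0) → ∃ C : ℝ, 0 ≤ C ∧ ∀ φ : E → ℝ,
    TK Ω S (Ψ.symm '' closedBall 0 R) φ →
    ∫ x in Ψ.symm '' closedBall 0 R, φ x ^ 2 ≤ C * ∫ x in Ψ.symm '' closedBall 0 R, ‖gr φ x‖ ^ 2

/-- without jump the solution extends harmonically -/
def T_NJS : Prop := ∀ (Ω S : Set E) (h : E → ℝ) (p : E), IsOpen Ω → Bornology.IsBounded Ω → IsClosed S →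
  volume S = 0 → WN Ω S h → NJ Ω h p → ∃ r > 0, ball p r ⊆ Ω ∧ ∃ U : E → ℝ, Harm (ball p r) U ∧
    ∀ x ∈ ball p r, x ∉ S → h x = U x

/-- smooth functions have no jump -/
def T_SNJ : Prop := ∀ (Ω S : Set E) (f U : E → ℝ) (p : E) (r : ℝ) (X : E → E), IsOpen Ω → IsClosed S →
  volume S = 0 → ball p r ⊆ Ω → ContDiffOn ℝ ∞ U (ball p r) → (∀ x ∈ ball p r, x ∉ S → f x = U x) →
  ContDiff ℝ ∞ X → HasCompactSupport X → tsupport X ⊆ ball p r → JX Ω X f = 0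

/-- the set of points without jump is closed in the analytic part of the crack -/
def T_CLO : Prop := ∀ (Ω S : Set E) (h : E → ℝ) (p : E), IsOpen Ω → Bornology.IsBounded Ω → IsClosed S →
  volume S = 0 → WN Ω S h → p ∈ S → p ∈ Ω → AChart S p → p ∈ closure {q | q ∈ S ∧ NJ Ω h q} → NJ Ω h p

/-- a jump which vanishes somewhere vanishes everywhere -/
def T_ALN : Prop := ∀ (Ω S : Set E) (h : E → ℝ), IsOpen Ω → Bornology.IsBounded Ω → IsAnaCrack Ω S → WN Ω S h →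
  (∃ p ∈ intPts S, NJ Ω h p) → ∀ p ∈ intPts S, NJ Ω h p

/-! ## Removal of the crack -/

/-- smooth cutoffs with small support -/
def T_CUT : Prop := ∀ (Z : Set E) (r : ℝ), IsCompact Z → Z.Nonempty → 0 < r → ∃ κ : E → ℝ, ContDiff ℝ ∞ κ ∧
  (∀ x, 0 ≤ κ x ∧ κ x ≤ 1) ∧ (∃ U : Set E, IsOpen U ∧ Z ⊆ U ∧ ∀ x ∈ U, κ x = 0) ∧
  (∀ x, r ≤ infDist x Z → κ x = 1) ∧ ∀ x, ‖gr κ x‖ ≤ 8 / r

/-- a crack without jump is removable -/
def T_RMC : Prop := ∀ (Ω S : Set E) (σ : Measure E) (ν : E → E) (h τ : E → ℝ), IsOpen Ω →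
  Bornology.IsBounded Ω → IsSurf Ω σ ν → IsCrack Ω S → (∀ p ∈ intPts S, NJ Ω h p) →
  HS1 Ω S σ ν h (gr h) τ → HS1 Ω ∅ σ ν h (gr h) τ

/-- without crack the solutions are the explicit potentials -/
def T_CON : Prop := ∀ (Ω S : Set E) (σ : Measure E) (ν : E → E) (h τ : E → ℝ) (i : Fin 2), Dom Ω →
  IsSurf Ω σ ν → IsCompact S → S ⊆ Ω → volume S = 0 → Harm (Ω \ S) h →
  Sol Ω S σ ν (prof2 ν i) h (gr h) τ → HS1 Ω ∅ σ ν h (gr h) τ → ∀ x ∈ Ω \ S, gr h x = gr (pot i) x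

/-- no surface is tangent to both explicit gradients -/
def T_CTC : Prop := ∀ (Ψ : OpenPartialHomeomorph E E) (p : E), p ∈ Ψ.source → (Ψ p) 2 = 0 →
  ContDiffOn ℝ ∞ Ψ Ψ.source → ContDiffOn ℝ ∞ Ψ.symm Ψ.target →
  ¬ ∀ i, ∀ q ∈ Ψ.source, (Ψ q) 2 = 0 → ⟪gr (pot i) q, gr (fun x => (Ψ x) 2) q⟫ = 0

/-- at least one of the two solutions jumps -/
def T_NOX : Prop := ∀ (Ω S : Set E) (σ : Measure E) (ν : E → E) (h τ : Fin 2 → E → ℝ), Dom Ω →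
  IsSurf Ω σ ν → IsCrack Ω S → (∀ i, Harm (Ω \ S) (h i)) →
  (∀ i, Sol Ω S σ ν (prof2 ν i) (h i) (gr (h i)) (τ i)) → ¬ ∀ i, ∀ p ∈ intPts S, NJ Ω (h i) p

/-! ## The theorem -/

/-- an analytic crack is contained in every crack with the same two measurements -/
def T_CSL : Prop := ∀ (Ω S S' : Set E) (σ : Measure E) (ν : E → E), Dom Ω → IsSurf Ω σ ν →
  IsAnaCrack Ω S → IsCrack Ω S' → Contain Ω σ ν (prof2 ν) S S'

/-- THE THEOREM -/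
def T_MNA : Prop := ∀ (Ω : Set E) (σ : Measure E) (ν : E → E), Dom Ω → IsSurf Ω σ ν →
  (∀ i, IsProfile σ (prof2 ν i)) ∧ ∀ S S' : Set E, IsAnaCrack Ω S → IsCrack Ω S' →
    Contain Ω σ ν (prof2 ν) S S' ∧ (IsAnaCrack Ω S' → Distinguish Ω σ ν (prof2 ν) S S')

end Pool.Agent.H94.AC
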