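import Mathlib
import Pool.Agent.H94.AC.Targets

/-!
# Module ALN: a jump which vanishes somewhere vanishes everywhere
-/

open MeasureTheory Set Filter Topology Metric
open scoped ENNReal NNReal ContDiff RealInnerProductSpace

namespace Pool.Agent.H94.AC

open Pool.Agent.H94.IC

theorem nj_open (Ω : Set E) (h : E → ℝ) : IsOpen {p | NJ Ω h p} := by
  rw [Metric.isOpen_iff]
  rintro p ⟨r, hr, hb, hX⟩
  refine ⟨r, hr, fun q hq => ?_⟩
  rw [mem_ball] at hq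
  have hsub : ball q (r - dist q p) ⊆ ball p r := by
    refine ball_subset_ball' ?_
    linarith
  exact ⟨r - dist q p, by linarith, hsub.trans hb, fun X h1 h2 h3 => hX X h1 h2 (h3.trans hsub)⟩

theorem aln (hCLO : T_CLO) (hCNI : T_CNI) (hEDC : T_EDC) : T_ALN := by
  intro Ω S h hΩ hΩb hS hW hex p hp
  have hS0 : volume S = 0 := (hEDC Ω S hS.crack).2.2.2.2
  have hSc : IsClosed S := hS.crack.cpt.isClosed
  have hcl : ∀ q ∈ intPts S, q ∈ closure {q | q ∈ S ∧ NJ Ω h q} → NJ Ω h q := fun q hq hq' =>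
    hCLO Ω S h q hΩ hΩb hSc hS0 hW hq.1 (hS.crack.sub hq.1) (hS.ana q hq) hq'
  by_contra hnp
  have hU : IsOpen {q | NJ Ω h q} := nj_open Ω h
  have hV : IsOpen (closure {q | q ∈ S ∧ NJ Ω h q})ᶜ := isClosed_closure.isOpen_compl
  obtain ⟨p0, hp0, hp0'⟩ := hex
  have key := hCNI Ω S hS.crack {q | NJ Ω h q} (closure {q | q ∈ S ∧ NJ Ω h q})ᶜ hU hV ?_
    ⟨p0, hp0, hp0'⟩ ⟨p, hp, fun hc => hnp (hcl p hp hc)⟩
  · obtain ⟨q, hq, hq1, hq2⟩ := key
    exact hq2 (subset_closure ⟨hq.1, hq1⟩)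
  · intro q hq
    by_cases hc : q ∈ closure {q | q ∈ S ∧ NJ Ω h q}
    · exact Or.inl (hcl q hq hc)
    · exact Or.inr hc

end Pool.Agent.H94.AC
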