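import Mathlib
import Pool.Agent.H94.AC.Targets

/-!
# Modules CSL and MNA: the theorem on analytic cracks
-/

open MeasureTheory Set Filter Topology Metric
open scoped ENNReal NNReal ContDiff RealInnerProductSpace

namespace Pool.Agent.H94.AC

open Pool.Agent.H94.IC

theorem csl (hHRP : T_HRP) (hEQC : T_EQC) (hSQI : T_SQI) (hSNJ : T_SNJ) (hALN : T_ALN) (hNOX : T_NOX)
    (hWNS : T_WNS) (hEDC : T_EDC) : T_CSL := by
  intro Ω S S' σ ν hD hσ hS hS' u u' F F' τ τ' hu _ hu' _ hττ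
  have hS0 : volume S = 0 := (hEDC Ω S hS.crack).2.2.2.2
  have hS'0 : volume S' = 0 := (hEDC Ω S' hS').2.2.2.2
  have hSc : IsClosed S := hS.crack.cpt.isClosed
  have hS'c : IsClosed S' := hS'.cpt.isClosed
  choose h hh _ _ hsol using fun i => hHRP Ω S σ ν (prof2 ν i) (u i) (F i) (τ i) hD.op hD.bdd hσ hS.crack.cpt
    hS.crack.sub hS0 (hu i)
  choose h' hh' _ _ hsol' using fun i => hHRP Ω S' σ ν (prof2 ν i) (u' i) (F' i) (τ' i) hD.op hD.bdd hσ hS'.cpt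
    hS'.sub hS'0 (hu' i)
  have heq := hEQC Ω S S' σ ν h h' τ τ' hD hσ hS.crack hS' hh hsol hh' hsol' hττ
  by_contra hnot
  obtain ⟨q, hq, hq'⟩ := not_subset.1 hnot
  have hqc : q ∈ closure (intPts S) := hSQI Ω S hS.crack hq
  obtain ⟨p, hp1, hp2⟩ := mem_closure_iff.1 hqc S'ᶜ hS'c.isOpen_compl hq'
  have hpΩ : p ∈ Ω := hS.crack.sub hp2.1
  obtain ⟨r, hr, hball⟩ := Metric.isOpen_iff.1 (hD.op.sdiff hS'c) p ⟨hpΩ, hp1⟩
  refine hNOX Ω S σ ν h τ hD hσ hS.crack hh hsol fun i => ?_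
  refine hALN Ω S (h i) hD.op hD.bdd hS
    (hWNS Ω S σ ν (prof2 ν i) (h i) (τ i) hD.op hD.bdd hσ hS.crack.cpt hS.crack.sub (hh i) (hsol i))
    ⟨p, hp2, r, hr, hball.trans sdiff_subset, fun X h1 h2 h3 => ?_⟩
  exact hSNJ Ω S (h i) (h' i) p r X hD.op hSc hS0 (hball.trans sdiff_subset) ((hh' i).1.mono hball)
    (fun x hx hxS => heq i x (hball hx).1 hxS (hball hx).2) h1 h2 h3

theorem mna (hCSL : T_CSL) (hPRT : T_PRT) : T_MNA := by
  intro Ω σ ν hD hσ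
  refine ⟨hPRT Ω σ ν hD hσ, fun S S' hS hS' => ⟨hCSL Ω S S' σ ν hD hσ hS hS', fun hA => ?_⟩⟩
  intro u u' F F' τ τ' h1 h2 h3 h4 h5
  exact Subset.antisymm (hCSL Ω S S' σ ν hD hσ hS hS' u u' F F' τ τ' h1 h2 h3 h4 h5)
    (hCSL Ω S' S σ ν hD hσ hA hS.crack u' u F' F τ' τ h3 h4 h1 h2 (fun i => (h5 i).symm))

end Pool.Agent.H94.AC
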