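import Mathlib
import Pool.Agent.H94.AC.Targets

/-!
# Module EDC: the edge of a crack
-/

open MeasureTheory Set Filter Topology Metric
open scoped ENNReal NNReal ContDiff RealInnerProductSpace

namespace Pool.Agent.H94.AC

open Pool.Agent.H94.IC

theorem edc (hNLS : T_NLS) : T_EDC := by
  intro Ω S hS
  obtain ⟨γ, hγ, -, hr⟩ := hS.edge
  refine ⟨?_, ?_, fun p hp => hp.1, fun p hp hpe => ?_, (hNLS Ω S).1 hS⟩
  · rw [← hr]; exact isCompact_range hγ
  · rw [← hr]; exact range_nonempty γ
  · rcases hS.chart p hp with h | h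
    · exact h
    · exact absurd h hpe

end Pool.Agent.H94.AC
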