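import Mathlib
import Pool.Agent.H94.AC.Targets
import Pool.Agent.H29.IC.Tools

/-!
# Module NOX: at least one of the two solutions jumps
-/

open MeasureTheory Set Filter Topology Metric
open scoped ENNReal NNReal ContDiff RealInnerProductSpace

namespace Pool.Agent.H94.AC

open Pool.Agent.H94.IC
open Pool.Agent.H29.IC (inner_gr norm_gr gr_apply)

theorem contDiff_co (k : Fin 3) : ContDiff ℝ ∞ (fun x : E => x k) := contDiff_piLp_apply (p := 2)

theorem pot_smooth (i : Fin 2) : ContDiff ℝ ∞ (pot i) := by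
  fin_cases i
  · exact contDiff_co 0
  · exact ((contDiff_co 0).mul (contDiff_co 1)).add (contDiff_co 2)

theorem pd_co (k l : Fin 3) (x : E) : pd k (fun x : E => x l) x = if k = l then 1 else 0 := by
  have h1 : HasFDerivAt (fun x : E => x l) (EuclideanSpace.proj l : E →L[ℝ] ℝ) x :=
    (EuclideanSpace.proj l : E →L[ℝ] ℝ).hasFDerivAt
  unfold pd
  rw [h1.fderiv]
  simp [EuclideanSpace.proj, eq_comm]

theorem pd_pot1 (k : Fin 3) (x : E) : pd k (pot 1) x =
    x 0 * (if k = 1 then 1 else 0) + x 1 * (if k = 0 then 1 else 0) + (if k = 2 then 1 else 0) := by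
  have d : ∀ l : Fin 3, DifferentiableAt ℝ (fun x : E => x l) x := fun l =>
    ((contDiff_co l).differentiable (by simp)) x
  have h1 : pot 1 = fun x : E => x 0 * x 1 + x 2 := rfl
  have e : ∀ l : Fin 3, fderiv ℝ (fun x : E => x l) x (ev k) = if k = l then 1 else 0 := fun l => pd_co k l x
  unfold pd
  have h2 : HasFDerivAt (fun x : E => x 0 * x 1 + x 2)
      (x 0 • fderiv ℝ (fun x : E => x 1) x + x 1 • fderiv ℝ (fun x : E => x 0) x
        + fderiv ℝ (fun x : E => x 2) x) x :=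
    ((d 0).hasFDerivAt.mul (d 1).hasFDerivAt).add (d 2).hasFDerivAt
  rw [h1, h2.fderiv]
  simp only [add_apply, smul_apply, smul_eq_mul, e]

theorem pd_add_const (k : Fin 3) (f : E → ℝ) (c : ℝ) : pd k (fun x => f x + c) = pd k f := by
  funext x
  unfold pd
  rw [fderiv_add_const]

theorem pot_harm (i : Fin 2) (c : ℝ) : Harm univ (fun x => pot i x + c) := by
  refine ⟨((pot_smooth i).add contDiff_const).contDiffOn, fun x _ => ?_⟩
  refine Finset.sum_eq_zero fun k _ => ?_
  rw [pd_add_const]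
  fin_cases i
  · have h1 : pd k (pot 0) = fun _ => if k = 0 then 1 else 0 := by
      funext y
      exact pd_co k 0 y
    show pd k (pd k (pot 0)) x = 0
    rw [h1]
    simp [pd]
  · have h1 : pd k (pot 1) = fun x : E =>
        x 0 * (if k = 1 then 1 else 0) + x 1 * (if k = 0 then 1 else 0) + (if k = 2 then 1 else 0) := by
      funext y
      exact pd_pot1 k y
    show pd k (pd k (pot 1)) x = 0
    rw [h1]
    have d : ∀ l : Fin 3, DifferentiableAt ℝ (fun x : E => x l) x := fun l =>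
      ((contDiff_co l).differentiable (by simp)) x
    have e : ∀ l : Fin 3, fderiv ℝ (fun x : E => x l) x (ev k) = if k = l then 1 else 0 := fun l => pd_co k l x
    unfold pd
    rw [fderiv_add_const, fderiv_fun_add ((d 0).mul_const _) ((d 1).mul_const _), fderiv_mul_const (d 0),
      fderiv_mul_const (d 1)]
    simp only [add_apply, smul_apply, smul_eq_mul, e]
    fin_cases k <;> simp

theorem gr_add_const (f : E → ℝ) (c : ℝ) (x : E) : gr (fun y => f y + c) x = gr f x := by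
  unfold gr gradient
  rw [fderiv_add_const]

theorem nox (hRMC : T_RMC) (hCON : T_CON) (hTAN : T_TAN) (hCTC : T_CTC) (hCNX : T_CNX) (hSQI : T_SQI)
    (hWNS : T_WNS) (hEDC : T_EDC) : T_NOX := by
  intro Ω S σ ν h τ hD hσ hS hh hsol hall
  have hS0 : volume S = 0 := (hEDC Ω S hS).2.2.2.2
  have hSc : IsClosed S := hS.cpt.isClosed
  have hO : IsOpen (Ω \ S) := hD.op.sdiff hSc
  have hgr : ∀ i, ∀ x ∈ Ω \ S, gr (h i) x = gr (pot i) x := fun i =>
    hCON Ω S σ ν (h i) (τ i) i hD hσ hS.cpt hS.sub hS0 (hh i) (hsol i)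
      (hRMC Ω S σ ν (h i) (τ i) hD.op hD.bdd hσ hS (hall i) (hsol i).h)
  have hcon : IsPreconnected (Ω \ S) := (hCNX Ω S hD.op hD.conn hS).isPreconnected
  have hconst : ∀ i, ∃ c : ℝ, ∀ x ∈ Ω \ S, h i x = pot i x + c := by
    intro i
    have h1 : DifferentiableOn ℝ (fun x => h i x - pot i x) (Ω \ S) :=
      ((hh i).1.differentiableOn (by simp)).sub ((pot_smooth i).differentiable (by simp)).differentiableOn
    obtain ⟨c, hc⟩ := hO.exists_is_const_of_fderiv_eq_zero hcon h1 (fun x hx => by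
      have d1 : DifferentiableAt ℝ (h i) x := ((hh i).1.contDiffAt (hO.mem_nhds hx)).differentiableAt (by simp)
      have d2 : DifferentiableAt ℝ (pot i) x := ((pot_smooth i).differentiable (by simp)) x
      have h2 := hgr i x hx
      unfold gr gradient at h2
      have h3 : fderiv ℝ (h i) x = fderiv ℝ (pot i) x := (InnerProductSpace.toDual ℝ E).symm.injective h2
      rw [fderiv_fun_sub d1 d2, h3, sub_self]
      rfl)
    exact ⟨c, fun x hx => by have := hc x hx; linarith⟩
  obtain ⟨p0, hp0⟩ := hS.conn.nonempty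
  have hne : (intPts S).Nonempty := by
    have := hSQI Ω S hS hp0
    exact (closure_nonempty_iff.1 ⟨p0, this⟩)
  obtain ⟨p, hpS, Ψ, hp, hp0', hsm, hsms, hfl⟩ := hne
  have hpΩ : p ∈ Ω := hS.sub hpS
  -- restrict the chart to the domain
  set Ψ' : OpenPartialHomeomorph E E := Ψ.restrOpen Ω hD.op with hΨ'
  have hsrc : Ψ'.source = Ψ.source ∩ Ω := by rw [hΨ', OpenPartialHomeomorph.restrOpen_source]
  have hcoe : ∀ x, Ψ' x = Ψ x := fun x => rfl
  have hcoes : ∀ x, Ψ'.symm x = Ψ.symm x := fun x => rfl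
  have htgt : Ψ'.target ⊆ Ψ.target := by
    intro y hy
    have h1 : Ψ'.symm y ∈ Ψ'.source := Ψ'.map_target hy
    rw [hsrc] at h1
    have h2 : Ψ' (Ψ'.symm y) = y := Ψ'.right_inv hy
    have h3 := Ψ.map_source h1.1
    rw [← hcoe, h2] at h3
    exact h3
  have hsm' : ContDiffOn ℝ ∞ Ψ' Ψ'.source := by
    rw [hsrc]; exact hsm.mono inter_subset_left
  have hsms' : ContDiffOn ℝ ∞ Ψ'.symm Ψ'.target := hsms.mono htgt
  have hfl' : ∀ x ∈ Ψ'.source, x ∈ S ↔ (Ψ' x) 2 = 0 := by
    intro x hx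
    rw [hsrc] at hx
    rw [hfl x hx.1]
    simp [hcoe]
  have hpsrc : p ∈ Ψ'.source := by rw [hsrc]; exact ⟨hp, hpΩ⟩
  have hp2 : (Ψ' p) 2 = 0 := (hfl' p hpsrc).1 hpS
  refine hCTC Ψ' p hpsrc hp2 hsm' hsms' fun i q hq hq2 => ?_
  obtain ⟨c, hc⟩ := hconst i
  have hW : WN Ω S (h i) := hWNS Ω S σ ν (prof2 ν i) (h i) (τ i) hD.op hD.bdd hσ hS.cpt hS.sub (hh i) (hsol i)
  have h1 := hTAN Ω S univ (h i) (fun x => pot i x + c) Ψ' hD.op hSc isOpen_univ hW (pot_harm i c)
    (subset_univ _) (by rw [hsrc]; exact inter_subset_right) hsm' hsms' hfl'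
    (fun x hx hxS => by
      rw [hsrc] at hx
      exact hc x ⟨hx.2, hxS⟩) q hq ((hfl' q hq).2 hq2)
  rw [gr_add_const] at h1
  exact h1

end Pool.Agent.H94.AC
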