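import Mathlib
import Pool.Agent.H94.IC.Assembly
import Pool.Agent.H94.AC.EDC
import Pool.Agent.H94.AC.ALN
import Pool.Agent.H94.AC.EQC
import Pool.Agent.H94.AC.NOX
import Pool.Agent.H94.AC.CSL
import Pool.Agent.H94.ICA.FCL
import Pool.Agent.H94.ICA.FMG
import Pool.Agent.H94.ICA.NJS
import Pool.Agent.H22.ICA.CTC
import Pool.Agent.H22.ICA.DFO
import Pool.Agent.H22.ICA.POI
import Pool.Agent.H29.ICA.CONX
import Pool.Agent.H29.ICA.MUO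
import Pool.Agent.H29.ICA.PRT
import Pool.Agent.H29.ICA.TBC
import Pool.Agent.H35.ICA.ATR
import Pool.Agent.H35.ICA.PBE
import Pool.Agent.H35.ICA.DFA
import Pool.Agent.H4.ICA.FMC
import Pool.Agent.H4.ICA.FML
import Pool.Agent.H4.ICA.CLO
import Pool.Agent.H4.ICA.RMC
import Pool.Agent.H56.ICA.DSJ
import Pool.Agent.H56.ICA.NVO
import Pool.Agent.H56.ICA.CNI
import Pool.Agent.H57.ICA.ABS
import Pool.Agent.H57.ICA.CUT
import Pool.Agent.H57.ICA.SNJ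
import Pool.Agent.H97.ICA.CNX
import Pool.Agent.H97.ICA.SUP

/-!
# Analytic insulating cracks: assembly of the modules
-/

namespace Pool.Agent.H94.AC

open Pool.Agent.H94.IC

theorem q_EDC : T_EDC := edc p_NLS

theorem q_FMG : T_FMG :=
  fmg q_EDC (Pool.Agent.H4.ICA.fmc (Pool.Agent.H4.ICA.fml (fcl p_RG2) q_EDC) q_EDC
    (Pool.Agent.H29.ICA.tbc Pool.Agent.H56.ICA.dsj q_EDC) p_EDG)

theorem q_EQC : T_EQC :=
  eqc p_UCX p_ENC p_FFE q_FMG (Pool.Agent.H56.ICA.nvo p_HRX) p_WNS Pool.Agent.H97.ICA.cnx q_EDC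

theorem q_CLO : T_CLO :=
  Pool.Agent.H4.ICA.clo Pool.Agent.H22.ICA.dfo (Pool.Agent.H35.ICA.D.dfa Pool.Agent.H97.ICA.sup)
    Pool.Agent.H35.ICA.P.pbe Pool.Agent.H22.ICA.poi
    (Pool.Agent.H35.ICA.atr Pool.Agent.H57.ICA.abs Pool.Agent.H29.ICA.muo) (njs p_WYL) Pool.Agent.H57.ICA.snj

theorem q_ALN : T_ALN := aln q_CLO Pool.Agent.H56.ICA.cni q_EDC

theorem q_NOX : T_NOX :=
  nox (Pool.Agent.H4.ICA.rmc Pool.Agent.H57.ICA.cut (Pool.Agent.H29.ICA.tbc Pool.Agent.H56.ICA.dsj q_EDC) q_EDC)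
    Pool.Agent.H29.ICA.con p_TAN Pool.Agent.H22.ICA.ctc Pool.Agent.H97.ICA.cnx p_SQI p_WNS q_EDC

theorem q_MNA : T_MNA :=
  mna (csl p_HRP q_EQC p_SQI Pool.Agent.H57.ICA.snj q_ALN q_NOX p_WNS q_EDC) Pool.Agent.H29.ICA.prt

end Pool.Agent.H94.AC
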